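import Pool.Agent.Helper79.GS.St5

set_option autoImplicit false

namespace Pool.Agent.Helper98.GS

open Pool.Agent.Helper79.GS Pool.Agent.Helper19.SK Pool.Agent.Helper73.DC Finset
open scoped Classical

private theorem b01_ne (p : Prop) : b01 p ≠ 0 ↔ p := by
  unfold b01
  by_cases h : p <;> simp [h]

private theorem sum_lt (c : ℕ → ℕ) (hc : ∀ p, c p ≤ 2) (K : ℕ) : ∑ p ∈ range K, c p * 3 ^ p < 3 ^ K := by
  induction K with
  | zero => simp
  | succ K ih =>
    rw [sum_range_succ, pow_succ]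
    have h := Nat.mul_le_mul_right (3 ^ K) (hc K)
    omega

private theorem cnt_le (w : List (Fin 5)) (j p : ℕ) : cntW w j p ≤ 2 := by
  unfold cntW
  split_ifs <;> omega

private theorem exp_le (n ℓ p : ℕ) (hp : p < n * n) : p ≤ 7 * (32 * (LL n + 1) ^ 2 + ℓ) := by
  unfold LL
  have h : n * n ≤ (2 * (n * n) + 1 + 1) ^ 2 := by
    have : 2 * (n * n) + 1 + 1 ≤ (2 * (n * n) + 1 + 1) ^ 2 := Nat.le_self_pow (by norm_num) _
    omega
  omega

private theorem b0_lt (hBND : StBND) (w : List (Fin 5)) : b0W (NN 16 w) w < 3 ^ (nW w * nW w) := by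
  obtain ⟨-, h3, -⟩ := hBND w
  have e : b0W (NN 16 w) w = ∑ p ∈ range (nW w * nW w), cntW w 0 p * 3 ^ p := by
    unfold b0W
    refine sum_congr rfl fun p hp => ?_
    rw [h3 p (exp_le _ _ _ (mem_range.1 hp))]
  rw [e]
  exact sum_lt _ (fun p => cnt_le w 0 p) _

private theorem ok0 (hBND : StBND) (w : List (Fin 5)) :
    OkF w 7 (RW w) (plW w) 0 0 (b0W (NN 16 w) w) 0 0 0 0 0 0 0 := by
  have hX : 0 < Xb (LL (nW w)) := by
    unfold Xb Qb
    positivity
  refine ⟨by norm_num, le_rfl, le_rfl, ?_, by positivity, by positivity, b0_lt hBND w, Nat.zero_le _,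
    fun _ => Nat.zero_le _, Nat.zero_le _, Nat.zero_le _, Nat.zero_le _, by positivity, by positivity, hX,
    fun h => absurd h (by norm_num)⟩
  unfold plW
  split_ifs <;> omega

/-- The language is in PSPACE. -/
theorem hPSP (hREC : StREC) (hBND : StBND) (hFLD : StFLD) (hRKB : StRKB) (hTG1 : StTG1) (hTG2 : StTG2)
    (hTG3 : StTG3) (hTG4 : StTG4) (hTG5 : StTG5) (hTG6 : StTG6) (hTG7 : StTG7) (hEP1 : StEP1) (hEP2 : StEP2)
    (hEP3 : StEP3) : StPSP := by
  have htag : ∀ w z, OkW w z → TagOK w z := by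
    intro w z hz
    unfold OkW at hz
    rcases hz with hz | ⟨T, r, c, a, b, u, k, m, fl, d, s, t, x, hok, hz⟩
    · rw [hz]
      exact hTG7.2 w
    · rw [hz]
      have h1 := hok.1
      have h2 := hok.2.1
      obtain rfl | rfl | rfl | rfl | rfl | rfl | rfl : T = 1 ∨ T = 2 ∨ T = 3 ∨ T = 4 ∨ T = 5 ∨ T = 6 ∨ T = 7 := by
        omega
      · exact hTG1 w r c a b u k m fl d s t x hok
      · exact hTG2 w r c a b u k m fl d s t x hok
      · exact hTG3 w r c a b u k m fl d s t x hok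
      · exact hTG4 w r c a b u k m fl d s t x hok
      · exact hTG5 w r c a b u k m fl d s t x hok
      · exact hTG6 w r c a b u k m fl d s t x hok
      · exact hTG7.1 w r c a b u k m fl d s t x hok
  refine hREC (Fin 5) (fun w v => IniN (v 1) w (v 0)) (fun w v => LenN (v 1) w (v 0))
    (fun w v => DelN (v 3) w (v 0) (v 1)) (fun w v => StpN (v 4) w (v 0) (v 1) (v 2) (v 3))
    (fun w v => OutN (v 2) w (v 0) (v 1)) (fun w v => Z0N (v 0) w) 16 LG OkW ValW rkW ?_ ?_ ?_ ?_ ?_ ?_ ?_ ?_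
  · exact (hEP1 (fun _ v => v 1) (fun _ v => v 0) (fun _ v => v 0) (e_get 1) (e_get 0) (e_get 0)).1
  · exact (hEP1 (fun _ v => v 1) (fun _ v => v 0) (fun _ v => v 0) (e_get 1) (e_get 0) (e_get 0)).2.1
  · exact hEP2 (fun _ v => v 3) (fun _ v => v 0) (fun _ v => v 1) (e_get 3) (e_get 0) (e_get 1)
  · exact hEP3 (fun _ v => v 4) (fun _ v => v 0) (fun _ v => v 1) (fun _ v => v 2) (fun _ v => v 3) (e_get 4)
      (e_get 0) (e_get 1) (e_get 2) (e_get 3)
  · exact (hEP1 (fun _ v => v 2) (fun _ v => v 0) (fun _ v => v 1) (e_get 2) (e_get 0) (e_get 1)).2.2.1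
  · exact (hEP1 (fun _ v => v 0) (fun _ v => v 0) (fun _ v => v 0) (e_get 0) (e_get 0) (e_get 0)).2.2.2
  · intro w z hz
    obtain ⟨t1, t2, t3, t4, t5⟩ := htag w z hz
    obtain ⟨r1, r2⟩ := hRKB w z hz
    refine ⟨r1, r2, t1, t2, ?_, t4, t5⟩
    intro j hj a ha
    obtain ⟨o1, o2, o3⟩ := t3 j hj
    exact ⟨o1, o2, fun x hx => o3 a ha x hx⟩
  · intro w
    have hok := ok0 hBND w
    obtain ⟨-, -, hv, -, hO⟩ := (hFLD w).2.2.2 _ _ _ _ _ _ _ _ _ _ _ _ _ hok
    refine ⟨hO, ?_⟩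
    change ValW w (zz (NN 16 w) w 7 (RW w) (plW w) 0 0 (b0W (NN 16 w) w) 0 0 0 0 0 0 0) ≠ 0 ↔ w ∈ LG
    rw [hv]
    have e : ValF w 7 (RW w) (plW w) 0 0 (b0W (NN 16 w) w) 0 0 0 0 0 0 0 =
        b01 (if plW w = 1 then WN (AW w) (HW w) (RW w) true (b0W (NN 16 w) w)
          else ¬ WN (AW w) (HW w) (RW w) false (b0W (NN 16 w) w)) := by
      simp [ValF]
    rw [e, b01_ne]
    rfl

end Pool.Agent.Helper98.GS
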